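import Mathlib

/-!
# Project V, module ALT: the linear algebra
-/

set_option autoImplicit false
set_option linter.unusedSectionVars false

namespace Pool.Agent.H12.V

open Module

section

variable {H : Type} [AddCommGroup H] [Module ℚ H] {K : Type} [Field K] [Algebra ℚ K]
  (ρ : K →ₐ[ℚ] Module.End ℚ H) {n : ℕ}

/-- Balanced forms. -/
def Bal (w : H [⋀^Fin n]→ₗ[ℚ] ℚ) : Prop :=
  ∀ (a : K) (v : Fin n → H) (l m : Fin n),
    w (Function.update v l (ρ a (v l))) = w (Function.update v m (ρ a (v m)))

variable {ρ}

theorem bal_zero {w : H [⋀^Fin n]→ₗ[ℚ] ℚ} (hw : Bal ρ w) (a : K) (v : Fin n → H) {i j : Fin n}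
    (hv : v i = v j) (hij : i ≠ j) (l : Fin n) : w (Function.update v l (ρ a (v l))) = 0 := by
  rw [hw a v l i]
  have h1 := hw a v i j
  have h2 : w (Function.update v i (ρ a (v i)) ∘ Equiv.swap i j) =
      - w (Function.update v i (ρ a (v i))) := w.map_swap _ hij
  have h3 : Function.update v i (ρ a (v i)) ∘ Equiv.swap i j = Function.update v j (ρ a (v j)) := by
    funext t
    rw [Function.comp_apply]
    rcases eq_or_ne t i with rfl | hti
    · rw [Equiv.swap_apply_left, Function.update_of_ne hij.symm, Function.update_of_ne hij, hv]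
    · rcases eq_or_ne t j with rfl | htj
      · rw [Equiv.swap_apply_right, Function.update_self, Function.update_self, hv]
      · rw [Equiv.swap_apply_of_ne_of_ne hti htj, Function.update_of_ne hti, Function.update_of_ne htj]
  rw [h3, ← h1] at h2
  linarith

/-- The form with a scalar applied in one slot. -/
noncomputable def sc (w : H [⋀^Fin n]→ₗ[ℚ] ℚ) (hw : Bal ρ w) (l : Fin n) (a : K) :
    H [⋀^Fin n]→ₗ[ℚ] ℚ :=
  { MultilinearMap.mk' (fun v => w (Function.update v l (ρ a (v l))))
      (by
        intro v t x y
        rcases eq_or_ne t l with rfl | h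
        · simp only [Function.update_self, Function.update_idem, map_add, AlternatingMap.map_update_add]
        · simp only [Function.update_of_ne h.symm]
          rw [Function.update_comm h, Function.update_comm h, Function.update_comm h,
            AlternatingMap.map_update_add])
      (by
        intro v t c x
        rcases eq_or_ne t l with rfl | h
        · simp only [Function.update_self, Function.update_idem, map_smul,
            AlternatingMap.map_update_smul]
        · simp only [Function.update_of_ne h.symm]
          rw [Function.update_comm h, Function.update_comm h, AlternatingMap.map_update_smul]) with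
    map_eq_zero_of_eq' := by
      intro v i j hv hij
      exact bal_zero hw a v hv hij l }

theorem sc_apply (w : H [⋀^Fin n]→ₗ[ℚ] ℚ) (hw : Bal ρ w) (l : Fin n) (a : K) (v : Fin n → H) :
    sc w hw l a v = w (Function.update v l (ρ a (v l))) := rfl

theorem sc_update (w : H [⋀^Fin n]→ₗ[ℚ] ℚ) (hw : Bal ρ w) (l : Fin n) (a b : K) (v : Fin n → H)
    (t : Fin n) : sc w hw l a (Function.update v t (ρ b (v t))) = sc w hw l (a * b) v := by
  rw [sc_apply, sc_apply]
  rcases eq_or_ne t l with rfl | h
  · rw [Function.update_self, Function.update_idem, map_mul]; rfl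
  · rw [Function.update_of_ne h.symm, Function.update_comm h]
    have h1 := hw b (Function.update v l (ρ a (v l))) t l
    rw [Function.update_of_ne h, Function.update_self, Function.update_idem] at h1
    rw [h1, mul_comm, map_mul]; rfl

/-- The family of forms. -/
theorem family (w : H [⋀^Fin n]→ₗ[ℚ] ℚ) (hw : Bal ρ w) :
    ∃ wa : K → H [⋀^Fin n]→ₗ[ℚ] ℚ, wa 1 = w ∧
      (∀ a b (v : Fin n → H) t, wa a (Function.update v t (ρ b (v t))) = wa (a * b) v) ∧
      ∀ a, ∃ c : Fin n → K, ∀ v : Fin n → H, wa a v = w fun l => ρ (c l) (v l) := by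
  rcases Nat.eq_zero_or_pos n with rfl | hn
  · exact ⟨fun _ => w, rfl, fun _ _ _ t => t.elim0, fun _ => ⟨fun _ => 1, fun v => by
      congr 1; funext l; exact l.elim0⟩⟩
  · refine ⟨sc w hw ⟨0, hn⟩, ?_, fun a b v t => sc_update w hw _ a b v t, fun a => ?_⟩
    · ext v
      rw [sc_apply, map_one]
      have : Function.update v ⟨0, hn⟩ ((1 : Module.End ℚ H) (v ⟨0, hn⟩)) = v :=
        Function.update_eq_self _ _
      rw [this]
    · refine ⟨Function.update (fun _ => 1) ⟨0, hn⟩ a, fun v => ?_⟩
      rw [sc_apply]
      congr 1
      funext t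
      rcases eq_or_ne t ⟨0, hn⟩ with rfl | h
      · rw [Function.update_self, Function.update_self]
      · rw [Function.update_of_ne h, Function.update_of_ne h, map_one]; rfl

/-- the functional `X ^ s ↦ x ^ (s / k)` or zero -/
noncomputable def ta (x : K) (k s : ℕ) : K := if k ∣ s then x ^ (s / k) else 0

theorem ta_zero (x : K) (k : ℕ) : ta x k 0 = 1 := by
  unfold ta
  rw [if_pos (dvd_zero k), Nat.zero_div, pow_zero]

theorem ta_add (x : K) {k : ℕ} (hk : 0 < k) (s : ℕ) : ta x k (s + k) = ta x k s * x := by
  unfold ta
  by_cases h : k ∣ s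
  · rw [if_pos h, if_pos ((Nat.dvd_add_right h).2 dvd_rfl), Nat.add_div_right _ hk, pow_succ]
  · rw [if_neg h, if_neg, zero_mul]
    intro h'
    exact h ((Nat.dvd_add_left dvd_rfl).1 h')

/-- The sum. -/
noncomputable def mm (wa : K → H [⋀^Fin n]→ₗ[ℚ] ℚ) (k : ℕ) (g : ℕ → K) :
    MultilinearMap ℚ (fun _ : Fin n => Fin k → H) ℚ :=
  ∑ i : Fin n → Fin k, ((wa (g (∑ l, (i l : ℕ)))).toMultilinearMap).compLinearMap
    fun l => (LinearMap.proj (i l) : (Fin k → H) →ₗ[ℚ] H)

theorem mm_apply (wa : K → H [⋀^Fin n]→ₗ[ℚ] ℚ) (k : ℕ) (g : ℕ → K) (v : Fin n → Fin k → H) :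
    mm wa k g v = ∑ i : Fin n → Fin k, wa (g (∑ l, (i l : ℕ))) fun l => v l (i l) := by
  unfold mm
  rw [_root_.MultilinearMap.sum_apply]
  rfl

/-- The form on the power. -/
noncomputable def ww (wa : K → H [⋀^Fin n]→ₗ[ℚ] ℚ) (k : ℕ) (g : ℕ → K) :
    (Fin k → H) [⋀^Fin n]→ₗ[ℚ] ℚ :=
  { mm wa k g with
    map_eq_zero_of_eq' := by
      intro v s t hv hst
      change mm wa k g v = 0
      rw [mm_apply]
      refine Finset.sum_involution (fun i _ => i ∘ Equiv.swap s t) ?_ ?_ ?_ ?_
      · intro i _
        have e1 : ∑ l, ((i ∘ Equiv.swap s t) l : ℕ) = ∑ l, (i l : ℕ) :=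
          Equiv.sum_comp (Equiv.swap s t) (fun l => (i l : ℕ))
        rw [e1]
        have e2 : (fun l => v l ((i ∘ Equiv.swap s t) l)) = (fun l => v l (i l)) ∘ Equiv.swap s t := by
          funext l
          have hvl : v l = v (Equiv.swap s t l) := by
            rcases eq_or_ne l s with rfl | hs
            · rw [Equiv.swap_apply_left, hv]
            · rcases eq_or_ne l t with rfl | ht
              · rw [Equiv.swap_apply_right, hv]
              · rw [Equiv.swap_apply_of_ne_of_ne hs ht]
          exact congrFun hvl _
        rw [e2, AlternatingMap.map_swap _ _ hst, add_neg_cancel]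
      · intro i _ hi hh
        apply hi
        apply AlternatingMap.map_eq_zero_of_eq _ _ _ hst
        have : i t = i s := by
          have := congrFun hh s
          rwa [Function.comp_apply, Equiv.swap_apply_left] at this
        change v s (i s) = v t (i t)
        rw [hv, this]
      · intro i _
        exact Finset.mem_univ _
      · intro i _
        funext l
        simp }

theorem ww_apply (wa : K → H [⋀^Fin n]→ₗ[ℚ] ℚ) (k : ℕ) (g : ℕ → K) (v : Fin n → Fin k → H) :
    ww wa k g v = ∑ i : Fin n → Fin k, wa (g (∑ l, (i l : ℕ))) fun l => v l (i l) :=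
  mm_apply wa k g v

end

theorem alt0 (H : Type) [AddCommGroup H] [Module ℚ H] [FiniteDimensional ℚ H] (K : Type) [Field K]
    [Algebra ℚ K] (ρ : K →ₐ[ℚ] Module.End ℚ H) (k n : ℕ) (x : K) (w : H [⋀^Fin n]→ₗ[ℚ] ℚ)
    (hk : 0 < k)
    (hw : ∀ (a : K) (v : Fin n → H) (l m : Fin n),
      w (Function.update v l (ρ a (v l))) = w (Function.update v m (ρ a (v m)))) :
    ∃ w' : (Fin k → H) [⋀^Fin n]→ₗ[ℚ] ℚ,
      (∀ v : Fin n → H, w' (fun l i => if (i : ℕ) = 0 then v l else 0) = w v) ∧
      (∃ (N : ℕ) (i : Fin N → Fin n → Fin k) (a : Fin N → Fin n → K), ∀ v : Fin n → Fin k → H,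
        w' v = ∑ m, w fun l => ρ (a m l) (v l (i m l))) ∧
      (∀ (a : K) (v : Fin n → Fin k → H) (l m : Fin n),
        w' (Function.update v l (fun i => ρ a (v l i))) =
          w' (Function.update v m (fun i => ρ a (v m i)))) ∧
      ∀ (v : Fin n → Fin k → H) (l m : Fin n),
        w' (Function.update v l (fun i : Fin k => if (i : ℕ) = 0 then
            ρ x (v l ⟨k - 1, by have := i.2; omega⟩) else v l ⟨(i : ℕ) - 1, by have := i.2; omega⟩)) =
          w' (Function.update v m (fun i : Fin k => if (i : ℕ) = 0 then
            ρ x (v m ⟨k - 1, by have := i.2; omega⟩) else v m ⟨(i : ℕ) - 1, by have := i.2; omega⟩)) := by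
  classical
  obtain ⟨wa, h1, h2, h3⟩ := family (ρ := ρ) w hw
  refine ⟨ww wa k (ta x k), ?_, ?_, ?_, ?_⟩
  · intro v
    rw [ww_apply, Finset.sum_eq_single (fun _ => (⟨0, hk⟩ : Fin k))]
    · have e : ∑ _l : Fin n, ((⟨0, hk⟩ : Fin k) : ℕ) = 0 := by simp
      rw [e, ta_zero, h1]
      simp
    · intro i _ hi
      obtain ⟨l, hl⟩ := Function.ne_iff.1 hi
      apply AlternatingMap.map_coord_zero _ l
      rw [if_neg]
      intro h
      exact hl (Fin.ext h)
    · intro h
      exact absurd (Finset.mem_univ _) h
  · choose c hc using h3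
    refine ⟨Fintype.card (Fin n → Fin k), fun m => (Fintype.equivFin (Fin n → Fin k)).symm m,
      fun m => c (ta x k (∑ l, (((Fintype.equivFin (Fin n → Fin k)).symm m) l : ℕ))), fun v => ?_⟩
    rw [ww_apply]
    rw [← Equiv.sum_comp (Fintype.equivFin (Fin n → Fin k)).symm]
    exact Finset.sum_congr rfl fun m _ => hc _ _
  · intro a v
    have key : ∀ l, ww wa k (ta x k) (Function.update v l (fun i => ρ a (v l i))) =
        ∑ i : Fin n → Fin k, wa (ta x k (∑ l, (i l : ℕ)) * a) fun l => v l (i l) := by
      intro l
      rw [ww_apply]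
      refine Finset.sum_congr rfl fun i _ => ?_
      rw [← h2 _ a _ l]
      congr 1
      funext t
      rcases eq_or_ne t l with rfl | h
      · rw [Function.update_self, Function.update_self]
      · rw [Function.update_of_ne h, Function.update_of_ne h]
    intro l m
    rw [key l, key m]
  · intro v
    have key : ∀ l, ww wa k (ta x k) (Function.update v l (fun i : Fin k => if (i : ℕ) = 0 then
            ρ x (v l ⟨k - 1, by have := i.2; omega⟩) else v l ⟨(i : ℕ) - 1, by have := i.2; omega⟩)) =
        ∑ i : Fin n → Fin k, wa (ta x k (1 + ∑ l, (i l : ℕ))) fun l => v l (i l) := by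
      intro l
      rw [ww_apply]
      set P : Fin k → Fin k := fun j => if (j : ℕ) = 0 then ⟨k - 1, by omega⟩ else
        ⟨(j : ℕ) - 1, by have := j.2; omega⟩ with hP
      set Q : Fin k → Fin k := fun j => if h : (j : ℕ) + 1 = k then ⟨0, hk⟩ else
        ⟨(j : ℕ) + 1, by have := j.2; omega⟩ with hQ
      have hPQ : ∀ j, P (Q j) = j := by
        intro j
        apply Fin.ext
        simp only [hP, hQ]
        by_cases h : (j : ℕ) + 1 = k
        · simp only [h, dite_true, if_true]
          omega
        · simp [h]
      have hQP : ∀ j, Q (P j) = j := by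
        intro j
        apply Fin.ext
        have := j.2
        simp only [hP, hQ]
        by_cases h : (j : ℕ) = 0
        · simp only [h, if_true]
          rw [dif_pos (by omega)]
        · simp only [h, if_false]
          rw [dif_neg (by omega)]
          simp only
          omega
      refine Finset.sum_nbij' (fun i => Function.update i l (P (i l)))
        (fun i => Function.update i l (Q (i l))) (fun _ _ => Finset.mem_univ _)
        (fun _ _ => Finset.mem_univ _) ?_ ?_ ?_
      · intro i _
        simp only [Function.update_self, Function.update_idem, hQP, Function.update_eq_self]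
      · intro i _
        simp only [Function.update_self, Function.update_idem, hPQ, Function.update_eq_self]
      · intro i _
        have s1 : ∑ t, (Function.update i l (P (i l)) t : ℕ) + (i l : ℕ) =
            ∑ t, (i t : ℕ) + (P (i l) : ℕ) := by
          rw [← Finset.add_sum_erase _ (fun t => (Function.update i l (P (i l)) t : ℕ)) (Finset.mem_univ l),
            ← Finset.add_sum_erase _ (fun t => (i t : ℕ)) (Finset.mem_univ l)]
          have : ∑ t ∈ Finset.univ.erase l, (Function.update i l (P (i l)) t : ℕ) =
              ∑ t ∈ Finset.univ.erase l, (i t : ℕ) :=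
            Finset.sum_congr rfl fun t ht => by
              rw [Function.update_of_ne (Finset.ne_of_mem_erase ht)]
          rw [this, Function.update_self]
          ring
        set u : Fin n → H := fun t => v t (Function.update i l (P (i l)) t) with hu
        have hul : u l = v l (P (i l)) := by rw [hu]; simp only [Function.update_self]
        have e1 : (fun t => (Function.update v l (fun i : Fin k => if (i : ℕ) = 0 then
            ρ x (v l ⟨k - 1, by have := i.2; omega⟩) else
              v l ⟨(i : ℕ) - 1, by have := i.2; omega⟩) : Fin n → Fin k → H) t (i t)) =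
            Function.update u l (if (i l : ℕ) = 0 then ρ x (u l) else u l) := by
          funext t
          rcases eq_or_ne t l with rfl | h
          · rw [Function.update_self, Function.update_self, hul]
            simp only [hP]
            split_ifs <;> rfl
          · rw [Function.update_of_ne h, Function.update_of_ne h, hu]
            simp only [Function.update_of_ne h]
        rw [e1]
        by_cases h0 : (i l : ℕ) = 0
        · rw [if_pos h0, h2, ← ta_add x hk]
          have hPk : (P (i l) : ℕ) = k - 1 := by simp only [hP, h0, if_true]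
          congr 3
          rw [hPk, h0] at s1
          omega
        · rw [if_neg h0, Function.update_eq_self]
          have hPk : (P (i l) : ℕ) = (i l : ℕ) - 1 := by simp only [hP, h0, if_false]
          congr 3
          rw [hPk] at s1
          omega
    intro l m
    rw [key l, key m]

end Pool.Agent.H12.V
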