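import Pool.Agent.H2.V.Stm
import Pool.Agent.H12.V.Alt0

set_option autoImplicit false

namespace Pool.Agent.H12.V

theorem alt : Pool.Agent.H2.V.S_ALT :=
  fun H _ _ _ K _ _ ρ k n x w hk hw => alt0 H K ρ k n x w hk hw

end Pool.Agent.H12.V
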