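import Mathlib

/-!
# Project V2, module PADK: the linear algebra
-/

set_option autoImplicit false
set_option linter.unusedSectionVars false

namespace Pool.Agent.H12.V2

open Module

/-! ## Products of multilinear maps -/

noncomputable def mulQ {H κ κ' : Type} [AddCommGroup H] [Module ℚ H]
    (F : MultilinearMap ℚ (fun _ : κ => H) ℚ) (G : MultilinearMap ℚ (fun _ : κ' => H) ℚ) :
    MultilinearMap ℚ (fun _ : κ ⊕ κ' => H) ℚ :=
  (LinearMap.mul' ℚ ℚ).compMultilinearMap (F.domCoprod G)

theorem mulQ_apply {H κ κ' : Type} [AddCommGroup H] [Module ℚ H]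
    (F : MultilinearMap ℚ (fun _ : κ => H) ℚ) (G : MultilinearMap ℚ (fun _ : κ' => H) ℚ)
    (v : κ ⊕ κ' → H) :
    mulQ F G v = F (fun k => v (Sum.inl k)) * G (fun k => v (Sum.inr k)) := by
  unfold mulQ
  rw [LinearMap.compMultilinearMap_apply, MultilinearMap.domCoprod_apply, LinearMap.mul'_apply]

theorem sum_perm {W P Q K T : Type} [AddCommGroup W] [Module ℚ W] [AddCommGroup P] [Module ℚ P]
    [Fintype K] [DecidableEq K] [Fintype T] [DecidableEq T] (b : T → Q) (ω : (T → Q) → ℚ)
    (M : MultilinearMap ℚ (fun _ : K => P) ℚ) (p1 : W → P) (p2 : W → Q)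
    (Φ : MultilinearMap ℚ (fun _ : K ⊕ T => W) ℚ)
    (hΦ : ∀ u : K ⊕ T → W, Φ u = M (fun k => p1 (u (Sum.inl k))) *
      ω (fun a => p2 (u (Sum.inr a)))) (v : K → P)
    (w : K ⊕ T → W) (hw1 : ∀ k, p1 (w (Sum.inl k)) = v k) (hw2 : ∀ a, p1 (w (Sum.inr a)) = 0)
    (hw3 : ∀ a, p2 (w (Sum.inr a)) = b a) :
    MultilinearMap.alternatization Φ w =
      (∑ σ : Equiv.Perm T, ((Equiv.Perm.sign σ : ℤ) : ℚ) * ω (fun a => b (σ a))) *
        MultilinearMap.alternatization M v := by
  rw [MultilinearMap.alternatization_apply, MultilinearMap.alternatization_apply]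
  have h1 : ∑ p : Equiv.Perm K × Equiv.Perm T,
      (Equiv.Perm.sign (Equiv.Perm.sumCongr p.1 p.2)) •
        Φ.domDomCongr (Equiv.Perm.sumCongr p.1 p.2) w =
      ∑ σ : Equiv.Perm (K ⊕ T), Equiv.Perm.sign σ • Φ.domDomCongr σ w := by
    refine Fintype.sum_of_injective
      (fun p : Equiv.Perm K × Equiv.Perm T => Equiv.Perm.sumCongr p.1 p.2) ?_ _ _ ?_ ?_
    · exact Equiv.Perm.sumCongrHom_injective
    · intro σ hσ
      have h2 : ¬ Set.MapsTo σ (Set.range (Sum.inl : K → K ⊕ T)) (Set.range Sum.inl) := by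
        intro h
        obtain ⟨p, hp⟩ := Equiv.Perm.mem_sumCongrHom_range_of_perm_mapsTo_inl h
        exact hσ ⟨p, hp⟩
      have h3 : ∃ k : K, ∃ a : T, σ (Sum.inl k) = Sum.inr a := by
        by_contra hc
        push Not at hc
        apply h2
        rintro _ ⟨k, rfl⟩
        rcases hs : σ (Sum.inl k) with x | a
        · exact ⟨x, rfl⟩
        · exact absurd hs (hc k a)
      obtain ⟨k, a, hk⟩ := h3
      have h4 : Φ.domDomCongr σ w = 0 := by
        rw [MultilinearMap.domDomCongr_apply, hΦ]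
        rw [M.map_coord_zero k (by rw [hk, hw2]), zero_mul]
      rw [h4, smul_zero]
    · intro p
      rfl
  rw [← h1, Fintype.sum_prod_type, Finset.sum_mul, Finset.sum_comm]
  apply Finset.sum_congr rfl
  intro ρ _
  rw [Finset.mul_sum]
  apply Finset.sum_congr rfl
  intro τ _
  rw [MultilinearMap.domDomCongr_apply, hΦ, MultilinearMap.domDomCongr_apply,
    Equiv.Perm.sign_sumCongr]
  simp only [Equiv.Perm.sumCongr_apply, Sum.map_inl, Sum.map_inr, hw1, hw3]
  rcases Int.units_eq_one_or (Equiv.Perm.sign ρ) with h | h <;>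
    rcases Int.units_eq_one_or (Equiv.Perm.sign τ) with h' | h' <;>
      rw [h, h'] <;> simp <;> exact mul_comm _ _

/-! ## Balanced forms -/

section

variable {H : Type} [AddCommGroup H] [Module ℚ H] {n : ℕ}

/-- The operator `g` can be moved. -/
def BalE (w : H [⋀^Fin n]→ₗ[ℚ] ℚ) (g : Module.End ℚ H) : Prop :=
  ∀ (v : Fin n → H) (l m : Fin n),
    w (Function.update v l (g (v l))) = w (Function.update v m (g (v m)))

theorem BalE.mul {w : H [⋀^Fin n]→ₗ[ℚ] ℚ} {g g' : Module.End ℚ H} (h : BalE w g) (h' : BalE w g')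
    (hc : g * g' = g' * g) : BalE w (g * g') := by
  intro v l m
  by_cases hlm : l = m
  · rw [hlm]
  have e1 := h (Function.update v l (g' (v l))) l m
  rw [Function.update_self, Function.update_idem, Function.update_of_ne (Ne.symm hlm)] at e1
  have e2 := h' (Function.update v m (g (v m))) l m
  rw [Function.update_self, Function.update_idem, Function.update_of_ne hlm] at e2
  rw [Function.update_comm hlm] at e1
  rw [Module.End.mul_apply, e1, e2]
  have e3 := congrArg (fun T : Module.End ℚ H => T (v m)) hc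
  simp only [Module.End.mul_apply] at e3
  rw [Module.End.mul_apply, e3]

theorem BalE.pow {w : H [⋀^Fin n]→ₗ[ℚ] ℚ} {g : Module.End ℚ H} (h : BalE w g) (s : ℕ) :
    BalE w (g ^ s) := by
  induction s with
  | zero =>
    intro v l m
    rw [pow_zero, Module.End.one_apply, Module.End.one_apply, Function.update_eq_self,
      Function.update_eq_self]
  | succ s ih =>
    rw [pow_succ]
    exact ih.mul h ((Commute.refl g).pow_left s)

theorem balE_zero {w : H [⋀^Fin n]→ₗ[ℚ] ℚ} {g : Module.End ℚ H} (hw : BalE w g) (v : Fin n → H)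
    {i j : Fin n} (hv : v i = v j) (hij : i ≠ j) (l : Fin n) :
    w (Function.update v l (g (v l))) = 0 := by
  rw [hw v l i]
  have h1 := hw v i j
  have h2 : w (Function.update v i (g (v i)) ∘ Equiv.swap i j) =
      - w (Function.update v i (g (v i))) := w.map_swap _ hij
  have h3 : Function.update v i (g (v i)) ∘ Equiv.swap i j = Function.update v j (g (v j)) := by
    funext t
    rw [Function.comp_apply]
    rcases eq_or_ne t i with rfl | hti
    · rw [Equiv.swap_apply_left, Function.update_of_ne hij.symm, Function.update_of_ne hij, hv]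
    · rcases eq_or_ne t j with rfl | htj
      · rw [Equiv.swap_apply_right, Function.update_self, Function.update_self, hv]
      · rw [Equiv.swap_apply_of_ne_of_ne hti htj, Function.update_of_ne hti, Function.update_of_ne htj]
  rw [h3, ← h1] at h2
  linarith

/-- The form with an operator applied in one slot. -/
noncomputable def sc (w : H [⋀^Fin n]→ₗ[ℚ] ℚ) (g : Module.End ℚ H) (hw : BalE w g) (l : Fin n) :
    H [⋀^Fin n]→ₗ[ℚ] ℚ :=
  { MultilinearMap.mk' (fun v => w (Function.update v l (g (v l))))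
      (by
        intro v t x y
        rcases eq_or_ne t l with rfl | h
        · simp only [Function.update_self, Function.update_idem, map_add, AlternatingMap.map_update_add]
        · simp only [Function.update_of_ne h.symm]
          rw [Function.update_comm h, Function.update_comm h, Function.update_comm h,
            AlternatingMap.map_update_add])
      (by
        intro v t c x
        rcases eq_or_ne t l with rfl | h
        · simp only [Function.update_self, Function.update_idem, map_smul,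
            AlternatingMap.map_update_smul]
        · simp only [Function.update_of_ne h.symm]
          rw [Function.update_comm h, Function.update_comm h, AlternatingMap.map_update_smul]) with
    map_eq_zero_of_eq' := by
      intro v i j hv hij
      exact balE_zero hw v hv hij l }

theorem sc_apply (w : H [⋀^Fin n]→ₗ[ℚ] ℚ) (g : Module.End ℚ H) (hw : BalE w g) (l : Fin n)
    (v : Fin n → H) : sc w g hw l v = w (Function.update v l (g (v l))) := rfl

/-- moving `g` into the powers -/
theorem sc_update (w : H [⋀^Fin n]→ₗ[ℚ] ℚ) (g : Module.End ℚ H) (hg : BalE w g) (l : Fin n) (s : ℕ)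
    (v : Fin n → H) (t : Fin n) : sc w (g ^ s) (hg.pow s) l (Function.update v t (g (v t))) =
      sc w (g ^ (s + 1)) (hg.pow (s + 1)) l v := by
  rw [sc_apply, sc_apply]
  rcases eq_or_ne t l with rfl | h
  · rw [Function.update_self, Function.update_idem, pow_succ, Module.End.mul_apply]
  · rw [Function.update_of_ne h.symm, Function.update_comm h]
    have h1 := hg (Function.update v l ((g ^ s) (v l))) t l
    rw [Function.update_of_ne h, Function.update_self, Function.update_idem] at h1
    rw [h1, pow_succ', Module.End.mul_apply]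

end

/-! ## The sum -/

section core

variable {V1 V2 : Type} [AddCommGroup V1] [Module ℚ V1] [AddCommGroup V2] [Module ℚ V2]
  {n r e : ℕ}

/-- The companion operator. -/
noncomputable def cmp (V2 : Type) [AddCommGroup V2] [Module ℚ V2] {e : ℕ} (p : Fin (e + 1) → ℚ) :
    (Fin (e + 1) → V2) →ₗ[ℚ] (Fin (e + 1) → V2) :=
  LinearMap.pi fun i => (Fin.cases (motive := fun _ => (Fin (e + 1) → V2) →ₗ[ℚ] V2) 0
    (fun x => LinearMap.proj x.castSucc) i) - p i • LinearMap.proj (Fin.last e)

theorem cmp_zero (p : Fin (e + 1) → ℚ) (z : Fin (e + 1) → V2) :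
    cmp V2 p z 0 = - (p 0 • z (Fin.last e)) := by
  simp [cmp]

theorem cmp_succ (p : Fin (e + 1) → ℚ) (z : Fin (e + 1) → V2) (x : Fin e) :
    cmp V2 p z x.succ = z x.castSucc - p x.succ • z (Fin.last e) := by
  simp [cmp]

/-- The terms of the sum. -/
noncomputable def Ph (W : ℕ → V1 [⋀^Fin n]→ₗ[ℚ] ℚ) (t : V2 [⋀^Fin r]→ₗ[ℚ] ℚ) (s : ℕ)
    (i : Fin r → Fin (e + 1)) :
    MultilinearMap ℚ (fun _ : Fin n ⊕ Fin r => V1 × (Fin (e + 1) → V2)) ℚ :=
  mulQ ((W (s + ∑ l, (i l : ℕ))).toMultilinearMap.compLinearMap fun _ => LinearMap.fst ℚ _ _)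
    (t.toMultilinearMap.compLinearMap fun l => (LinearMap.proj (i l)) ∘ₗ LinearMap.snd ℚ _ _)

theorem Ph_apply (W : ℕ → V1 [⋀^Fin n]→ₗ[ℚ] ℚ) (t : V2 [⋀^Fin r]→ₗ[ℚ] ℚ) (s : ℕ)
    (i : Fin r → Fin (e + 1)) (u : Fin n ⊕ Fin r → V1 × (Fin (e + 1) → V2)) :
    Ph W t s i u = W (s + ∑ l, (i l : ℕ)) (fun k => (u (Sum.inl k)).1) *
      t (fun l => (u (Sum.inr l)).2 (i l)) := by
  unfold Ph
  rw [mulQ_apply]
  rfl

/-- Averaging over one index. -/
theorem sum_upd {β : Type} [Fintype β] [DecidableEq β] (G : (Fin r → β) → ℚ) (a : Fin r) :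
    ∑ i : Fin r → β, ∑ x : β, G (Function.update i a x) = (Fintype.card β : ℚ) * ∑ i, G i := by
  have h1 : ∑ q : (Fin r → β) × β, G (Function.update q.1 a q.2) =
      ∑ q : (Fin r → β) × β, G q.1 := by
    have hinv : Function.Involutive fun q : (Fin r → β) × β => (Function.update q.1 a q.2, q.1 a) := by
      rintro ⟨i, x⟩
      simp
    exact Fintype.sum_equiv hinv.toPerm _ _ fun q => rfl
  rw [← Fintype.sum_prod_type', h1, Fintype.sum_prod_type]
  simp [Finset.mul_sum]

/-- The recursion. -/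
theorem ph_move (W : ℕ → V1 [⋀^Fin n]→ₗ[ℚ] ℚ) (h : Module.End ℚ V1) (p : Fin (e + 1) → ℚ)
    (hW : ∀ s (v : Fin n → V1) k, W s (Function.update v k (h (v k))) = W (s + 1) v)
    (hP : ∀ s (v : Fin n → V1), W (s + (e + 1)) v = - ∑ x : Fin (e + 1), p x * W (s + x) v)
    (t : V2 [⋀^Fin r]→ₗ[ℚ] ℚ) (s : ℕ) (u : Fin n ⊕ Fin r → V1 × (Fin (e + 1) → V2))
    (k : Fin n ⊕ Fin r) :
    ∑ i, Ph W t s i (Function.update u k (h (u k).1, cmp V2 p (u k).2)) =
      ∑ i, Ph W t (s + 1) i u := by
  rcases k with k | a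
  · refine Finset.sum_congr rfl fun i _ => ?_
    rw [Ph_apply, Ph_apply]
    have e1 : (fun k' => (Function.update u (Sum.inl k) (h (u (Sum.inl k)).1,
        cmp V2 p (u (Sum.inl k)).2) (Sum.inl k')).1) =
        Function.update (fun k' => (u (Sum.inl k')).1) k (h (u (Sum.inl k)).1) := by
      funext k'
      rcases eq_or_ne k' k with rfl | hk
      · rw [Function.update_self, Function.update_self]
      · rw [Function.update_of_ne (fun h => hk (Sum.inl_injective h)), Function.update_of_ne hk]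
    have e2 : (fun l => (Function.update u (Sum.inl k) (h (u (Sum.inl k)).1,
        cmp V2 p (u (Sum.inl k)).2) (Sum.inr l)).2 (i l)) =
        fun l => (u (Sum.inr l)).2 (i l) := by
      funext l
      rw [Function.update_of_ne (by simp)]
    rw [e1, e2, hW _ (fun k' => (u (Sum.inl k')).1) k]
    have e3 : s + ∑ l, (i l : ℕ) + 1 = s + 1 + ∑ l, (i l : ℕ) := by ring
    rw [e3]
  · have hc : (Fintype.card (Fin (e + 1)) : ℚ) ≠ 0 := by
      rw [Fintype.card_fin]
      positivity
    apply mul_left_cancel₀ hc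
    rw [← sum_upd _ a, ← sum_upd _ a]
    refine Finset.sum_congr rfl fun i _ => ?_
    set y : Fin n → V1 := fun k => (u (Sum.inl k)).1 with hy
    set D : Fin (e + 1) → ℚ := fun x => t (Function.update (fun l => (u (Sum.inr l)).2 (i l)) a
      ((u (Sum.inr a)).2 x)) with hD
    set S : ℕ := s + ∑ l ∈ Finset.univ.erase a, (i l : ℕ) with hS
    have hsum : ∀ x : Fin (e + 1), ∑ l, (Function.update i a x l : ℕ) =
        (x : ℕ) + ∑ l ∈ Finset.univ.erase a, (i l : ℕ) := by
      intro x
      rw [← Finset.add_sum_erase _ (fun l => (Function.update i a x l : ℕ)) (Finset.mem_univ a),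
        Function.update_self]
      congr 1
      exact Finset.sum_congr rfl fun l hl => by
        rw [Function.update_of_ne (Finset.ne_of_mem_erase hl)]
    have hR : ∀ x : Fin (e + 1), Ph W t (s + 1) (Function.update i a x) u = W (S + 1 + x) y * D x := by
      intro x
      rw [Ph_apply, hsum]
      have e1 : s + 1 + ((x : ℕ) + ∑ l ∈ Finset.univ.erase a, (i l : ℕ)) = S + 1 + x := by
        rw [hS]; ring
      rw [e1]
      congr 2
      funext l
      rcases eq_or_ne l a with rfl | hl
      · rw [Function.update_self, Function.update_self]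
      · rw [Function.update_of_ne hl, Function.update_of_ne hl]
    have hL : ∀ x : Fin (e + 1), Ph W t s (Function.update i a x)
        (Function.update u (Sum.inr a) (h (u (Sum.inr a)).1, cmp V2 p (u (Sum.inr a)).2)) =
        W (S + x) y * t (Function.update (fun l => (u (Sum.inr l)).2 (i l)) a
          (cmp V2 p (u (Sum.inr a)).2 x)) := by
      intro x
      rw [Ph_apply, hsum]
      have e1 : s + ((x : ℕ) + ∑ l ∈ Finset.univ.erase a, (i l : ℕ)) = S + x := by
        rw [hS]; ring
      rw [e1]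
      have e2 : (fun k => (Function.update u (Sum.inr a) (h (u (Sum.inr a)).1,
          cmp V2 p (u (Sum.inr a)).2) (Sum.inl k)).1) = y := by
        funext k'
        rw [Function.update_of_ne (by simp)]
      rw [e2]
      congr 2
      funext l
      rcases eq_or_ne l a with rfl | hl
      · rw [Function.update_self, Function.update_self, Function.update_self]
      · rw [Function.update_of_ne (fun h => hl (Sum.inr_injective h)), Function.update_of_ne hl,
          Function.update_of_ne hl]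
    simp only [hR, hL]
    rw [Fin.sum_univ_succ, cmp_zero, Fin.sum_univ_castSucc (fun x => W (S + 1 + (x : ℕ)) y * D x)]
    have e3 : t (Function.update (fun l => (u (Sum.inr l)).2 (i l)) a
        (-(p 0 • (u (Sum.inr a)).2 (Fin.last e)))) = - (p 0 * D (Fin.last e)) := by
      rw [← neg_smul, t.map_update_smul, smul_eq_mul, neg_mul]
    have e4 : ∀ x : Fin e, t (Function.update (fun l => (u (Sum.inr l)).2 (i l)) a
        (cmp V2 p (u (Sum.inr a)).2 x.succ)) = D x.castSucc - p x.succ * D (Fin.last e) := by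
      intro x
      rw [cmp_succ, t.map_update_sub, t.map_update_smul, smul_eq_mul]
    rw [e3]
    simp only [e4]
    have e5 := hP S y
    rw [Fin.sum_univ_succ] at e5
    have e6 : S + 1 + ((Fin.last e : Fin (e + 1)) : ℕ) = S + (e + 1) := by
      rw [Fin.val_last]; ring
    rw [e6, e5]
    simp only [mul_sub, Finset.sum_sub_distrib, Fin.val_succ, Fin.val_castSucc, Fin.val_zero]
    have e7 : ∑ x : Fin e, W (S + ((x : ℕ) + 1)) y * (p x.succ * D (Fin.last e)) =
        (∑ x : Fin e, p x.succ * W (S + ((x : ℕ) + 1)) y) * D (Fin.last e) := by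
      rw [Finset.sum_mul]
      exact Finset.sum_congr rfl fun x _ => by ring
    rw [e7]
    have e8 : ∑ x : Fin e, W (S + ((x : ℕ) + 1)) y * D x.castSucc =
        ∑ x : Fin e, W (S + 1 + (x : ℕ)) y * D x.castSucc :=
      Finset.sum_congr rfl fun x _ => by rw [show S + ((x : ℕ) + 1) = S + 1 + (x : ℕ) by ring]
    rw [e8]
    ring

/-- The alternating form. -/
noncomputable def Al (W : ℕ → V1 [⋀^Fin n]→ₗ[ℚ] ℚ) (t : V2 [⋀^Fin r]→ₗ[ℚ] ℚ) (e s : ℕ) :
    (V1 × (Fin (e + 1) → V2)) [⋀^Fin n ⊕ Fin r]→ₗ[ℚ] ℚ :=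
  MultilinearMap.alternatization (∑ i, Ph W t s i)

theorem Al_apply (W : ℕ → V1 [⋀^Fin n]→ₗ[ℚ] ℚ) (t : V2 [⋀^Fin r]→ₗ[ℚ] ℚ) (e s : ℕ)
    (v : Fin n ⊕ Fin r → V1 × (Fin (e + 1) → V2)) :
    Al W t e s v = ∑ σ : Equiv.Perm (Fin n ⊕ Fin r), ((Equiv.Perm.sign σ : ℤ) : ℚ) *
      ∑ i, Ph W t s i (fun k => v (σ k)) := by
  unfold Al
  rw [MultilinearMap.alternatization_apply]
  refine Finset.sum_congr rfl fun σ _ => ?_
  rw [MultilinearMap.domDomCongr_apply, _root_.sum_apply]
  rcases Int.units_eq_one_or (Equiv.Perm.sign σ) with h | h <;> rw [h] <;> simp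

theorem Al_move (W : ℕ → V1 [⋀^Fin n]→ₗ[ℚ] ℚ) (h : Module.End ℚ V1) (p : Fin (e + 1) → ℚ)
    (hW : ∀ s (v : Fin n → V1) k, W s (Function.update v k (h (v k))) = W (s + 1) v)
    (hP : ∀ s (v : Fin n → V1), W (s + (e + 1)) v = - ∑ x : Fin (e + 1), p x * W (s + x) v)
    (t : V2 [⋀^Fin r]→ₗ[ℚ] ℚ) (s : ℕ) (u : Fin n ⊕ Fin r → V1 × (Fin (e + 1) → V2))
    (k : Fin n ⊕ Fin r) :
    Al W t e s (Function.update u k (h (u k).1, cmp V2 p (u k).2)) = Al W t e (s + 1) u := by
  rw [Al_apply, Al_apply]
  refine Finset.sum_congr rfl fun σ _ => ?_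
  congr 1
  have e1 : (fun k' => Function.update u k (h (u k).1, cmp V2 p (u k).2) (σ k')) =
      Function.update (fun k' => u (σ k')) (σ.symm k)
        (h (u (σ (σ.symm k))).1, cmp V2 p (u (σ (σ.symm k))).2) := by
    funext k'
    rcases eq_or_ne k' (σ.symm k) with rfl | hk
    · rw [Function.update_self, Equiv.apply_symm_apply, Function.update_self]
    · rw [Function.update_of_ne hk, Function.update_of_ne]
      intro h
      apply hk
      rw [← h, Equiv.symm_apply_apply]
  rw [e1]
  exact ph_move W h p hW hP t s (fun k' => u (σ k')) (σ.symm k)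

/-- The value on blocks. -/
theorem Al_block (W : ℕ → V1 [⋀^Fin n]→ₗ[ℚ] ℚ) (t : V2 [⋀^Fin r]→ₗ[ℚ] ℚ) (e : ℕ)
    (v : Fin n → V1) (b : Fin r → V2) :
    Al W t e 0 (Sum.elim (fun k => (v k, 0)) (fun k => (0, Pi.single 0 (b k)))) =
      ((Nat.factorial n : ℕ) : ℚ) * ((Nat.factorial r : ℕ) : ℚ) * (W 0 v * t b) := by
  classical
  unfold Al
  have e1 : MultilinearMap.alternatization (∑ i : Fin r → Fin (e + 1), Ph W t 0 i) =
      ∑ i : Fin r → Fin (e + 1), MultilinearMap.alternatization (Ph W t 0 i) := map_sum _ _ _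
  rw [e1, _root_.sum_apply]
  have e2 : ∀ i : Fin r → Fin (e + 1), MultilinearMap.alternatization (Ph W t 0 i)
      (Sum.elim (fun k => (v k, 0)) (fun k => (0, Pi.single 0 (b k)))) =
      (∑ σ : Equiv.Perm (Fin r), ((Equiv.Perm.sign σ : ℤ) : ℚ) *
        t (fun l => (Pi.single 0 (b (σ l)) : Fin (e + 1) → V2) (i l))) *
      MultilinearMap.alternatization (W (0 + ∑ l, (i l : ℕ))).toMultilinearMap v := by
    intro i
    exact sum_perm (fun k => (Pi.single 0 (b k) : Fin (e + 1) → V2))
      (fun z => t fun l => z l (i l)) (W (0 + ∑ l, (i l : ℕ))).toMultilinearMap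
      Prod.fst Prod.snd (Ph W t 0 i) (fun u => Ph_apply W t 0 i u) v _ (fun _ => rfl)
      (fun _ => rfl) (fun _ => rfl)
  rw [Finset.sum_eq_single (fun _ => (0 : Fin (e + 1)))]
  · rw [e2]
    have e3 : ∑ _l : Fin r, (((0 : Fin (e + 1)) : ℕ)) = 0 := by simp
    rw [e3, add_zero]
    have e4 : ∀ σ : Equiv.Perm (Fin r), ((Equiv.Perm.sign σ : ℤ) : ℚ) *
        t (fun l => (Pi.single 0 (b (σ l)) : Fin (e + 1) → V2) 0) = t b := by
      intro σ
      have : (fun l => (Pi.single 0 (b (σ l)) : Fin (e + 1) → V2) 0) = b ∘ σ := by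
        funext l
        rw [Pi.single_eq_same]; rfl
      rw [this, t.map_perm]
      rcases Int.units_eq_one_or (Equiv.Perm.sign σ) with h | h <;> rw [h] <;> simp
    simp only [e4]
    have e5 := AlternatingMap.coe_alternatization (W 0)
    have e6 : MultilinearMap.alternatization (W 0).toMultilinearMap v =
        ((Nat.factorial n : ℕ) : ℚ) * W 0 v := by
      have := congrArg (fun f : V1 [⋀^Fin n]→ₗ[ℚ] ℚ => f v) e5
      simp only [AlternatingMap.smul_apply, nsmul_eq_mul, Fintype.card_fin] at this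
      exact this
    rw [e6, Finset.sum_const, Finset.card_univ, Fintype.card_perm, Fintype.card_fin, nsmul_eq_mul]
    ring
  · intro i _ hi
    rw [e2]
    obtain ⟨l, hl⟩ := Function.ne_iff.1 hi
    have : ∀ σ : Equiv.Perm (Fin r), ((Equiv.Perm.sign σ : ℤ) : ℚ) *
        t (fun l => (Pi.single 0 (b (σ l)) : Fin (e + 1) → V2) (i l)) = 0 := by
      intro σ
      rw [t.map_coord_zero l (by rw [Pi.single_eq_of_ne hl]), mul_zero]
    simp only [this, Finset.sum_const_zero, zero_mul]
  · intro h
    exact absurd (Finset.mem_univ _) h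

end core

end Pool.Agent.H12.V2
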